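import Mathlib

open Finset symmDiff

namespace Pool.Agent.Helper378.Cube

variable {n : ℕ}

lemma card_symmDiff_add (x y : Finset (Fin n)) :
    (x ∆ y).card + 2 * (x ∩ y).card = x.card + y.card := by
  have h1 : (x ∆ y).card = (x \ y).card + (y \ x).card := by
    rw [symmDiff_def, Finset.sup_eq_union, Finset.card_union_of_disjoint]
    exact disjoint_sdiff_sdiff
  have h2 := Finset.card_sdiff_add_card_inter x y
  have h3 := Finset.card_sdiff_add_card_inter y x
  rw [Finset.inter_comm y x] at h3
  omega

/-- even subsets -/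
def V (n : ℕ) : Finset (Finset (Fin n)) := univ.filter (fun x => Even x.card)

lemma mem_V {x : Finset (Fin n)} : x ∈ V n ↔ Even x.card := by simp [V]

lemma even_symmDiff {x y : Finset (Fin n)} (hx : Even x.card) (hy : Even y.card) :
    Even (x ∆ y).card := by
  have := card_symmDiff_add x y
  rw [Nat.even_iff] at *
  omega

/-- two-sets at distance two from a given set -/
def T (D : Finset (Fin n)) : Finset (Finset (Fin n)) :=
  (powersetCard 2 univ).filter (fun S => (D ∆ S).card = 2)

lemma T_card_zero : (T (∅ : Finset (Fin n))).card ≤ n.choose 2 := by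
  unfold T
  refine (Finset.card_filter_le _ _).trans ?_
  rw [Finset.card_powersetCard]; simp

lemma T_card_two (D : Finset (Fin n)) (hD : D.card = 2) : (T D).card ≤ 2 * (n - 2) := by
  have : (T D).card ≤ ((powersetCard 1 D) ×ˢ (powersetCard 1 Dᶜ)).card := by
    apply Finset.card_le_card_of_injOn (fun S => (S ∩ D, S \ D))
    · intro S hS
      simp only [T, Finset.coe_filter, Set.mem_ofPred_eq, Finset.mem_powersetCard] at hS
      obtain ⟨⟨_, hS2⟩, hS3⟩ := hS
      have h1 := card_symmDiff_add D S
      have h2 := Finset.card_sdiff_add_card_inter S D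
      rw [Finset.inter_comm] at h1
      simp only [Finset.coe_product, Set.mem_prod, Finset.mem_coe, Finset.mem_powersetCard]
      refine ⟨⟨Finset.inter_subset_right, by omega⟩, ⟨?_, by omega⟩⟩
      intro a ha
      rw [Finset.mem_sdiff] at ha
      exact Finset.mem_compl.mpr ha.2
    · intro S _ S' _ h
      simp only [Prod.mk.injEq] at h
      have e1 : S ∩ D ∪ S \ D = S := by
        rw [Finset.union_comm]; exact Finset.sdiff_union_inter S D
      have e2 : S' ∩ D ∪ S' \ D = S' := by
        rw [Finset.union_comm]; exact Finset.sdiff_union_inter S' D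
      rw [← e1, ← e2, h.1, h.2]
  refine this.trans ?_
  rw [Finset.card_product, Finset.card_powersetCard, Finset.card_powersetCard, hD,
    Finset.card_compl, hD]
  simp

lemma T_card_four (D : Finset (Fin n)) (hD : D.card = 4) : (T D).card ≤ 6 := by
  have : T D ⊆ powersetCard 2 D := by
    intro S hS
    simp only [T, Finset.mem_filter, Finset.mem_powersetCard] at hS
    obtain ⟨⟨_, hS2⟩, hS3⟩ := hS
    have h1 := card_symmDiff_add D S
    rw [Finset.mem_powersetCard]
    refine ⟨?_, hS2⟩
    have h2 : (D ∩ S).card = S.card := by omega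
    have h3 : D ∩ S = S := Finset.eq_of_subset_of_card_le Finset.inter_subset_right (by omega)
    rw [← h3]; exact Finset.inter_subset_left
  refine (Finset.card_le_card this).trans ?_
  rw [Finset.card_powersetCard, hD]; decide

lemma T_card_big (D : Finset (Fin n)) (h0 : D.card ≠ 0) (h2 : D.card ≠ 2) (h4 : D.card ≠ 4) :
    (T D).card = 0 := by
  rw [Finset.card_eq_zero]
  rw [Finset.eq_empty_iff_forall_notMem]
  intro S hS
  simp only [T, Finset.mem_filter, Finset.mem_powersetCard] at hS
  obtain ⟨⟨_, hS2⟩, hS3⟩ := hS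
  have h1 := card_symmDiff_add D S
  have h5 : (D ∩ S).card ≤ S.card := Finset.card_le_card Finset.inter_subset_right
  omega

/-- indicator of distance two -/
def g (x c : Finset (Fin n)) : ℝ := if (x ∆ c).card = 2 then 1 else 0

lemma sum_g_g (x y : Finset (Fin n)) :
    ∑ c ∈ V n, g x c * g y c ≤ (if x = y then (n.choose 2 : ℝ) else 0)
      + (if (x ∆ y).card = 2 then 2 * ((n:ℝ) - 2) else 0)
      + (if (x ∆ y).card = 4 then 6 else 0) := by
  have h1 : ∑ c ∈ V n, g x c * g y c
      = (((V n).filter (fun c => (x ∆ c).card = 2 ∧ (y ∆ c).card = 2)).card : ℝ) := by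
    rw [Finset.card_filter]
    push_cast
    apply Finset.sum_congr rfl
    intro c _
    unfold g
    by_cases h1 : (x ∆ c).card = 2 <;> by_cases h2 : (y ∆ c).card = 2 <;> simp [h1, h2]
  have h2 : ((V n).filter (fun c => (x ∆ c).card = 2 ∧ (y ∆ c).card = 2)).card ≤ (T (x ∆ y)).card := by
    apply Finset.card_le_card_of_injOn (fun c => x ∆ c)
    · intro c hc
      simp only [Finset.coe_filter, Set.mem_ofPred_eq] at hc
      simp only [T, Finset.coe_filter, Set.mem_ofPred_eq, Finset.mem_powersetCard]
      refine ⟨⟨Finset.subset_univ _, hc.2.1⟩, ?_⟩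
      have : (x ∆ y) ∆ (x ∆ c) = y ∆ c := by
        rw [symmDiff_comm x y, symmDiff_assoc, symmDiff_symmDiff_cancel_left]
      rw [this]; exact hc.2.2
    · intro a _ b _ h
      exact symmDiff_right_injective x h
  rw [h1]
  have h3 : ((((V n).filter (fun c => (x ∆ c).card = 2 ∧ (y ∆ c).card = 2)).card : ℕ) : ℝ)
      ≤ ((T (x ∆ y)).card : ℝ) := by exact_mod_cast h2
  refine h3.trans ?_
  by_cases hxy : x = y
  · subst hxy
    simp only [symmDiff_self, Finset.bot_eq_empty, Finset.card_empty]
    have := T_card_zero (n := n)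
    simp only [if_true]
    norm_num
    exact this
  · by_cases hc2 : (x ∆ y).card = 2
    · have := T_card_two _ hc2
      have hn : 2 ≤ n := by
        have := Finset.card_le_univ (x ∆ y)
        rw [hc2, Fintype.card_fin] at this
        exact this
      have h5 : ((T (x ∆ y)).card : ℝ) ≤ 2 * ((n:ℝ) - 2) := by
        have h6 : ((T (x ∆ y)).card : ℝ) ≤ ((2 * (n - 2) : ℕ) : ℝ) := by exact_mod_cast this
        push_cast [Nat.cast_sub hn] at h6
        exact h6
      rw [if_neg hxy, if_pos hc2, if_neg (by omega)]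
      linarith
    · by_cases hc4 : (x ∆ y).card = 4
      · have := T_card_four _ hc4
        have h5 : ((T (x ∆ y)).card : ℝ) ≤ 6 := by exact_mod_cast this
        rw [if_neg hxy, if_neg hc2, if_pos hc4]
        linarith
      · have h0 : (x ∆ y).card ≠ 0 := by
          intro h
          rw [Finset.card_eq_zero] at h
          exact hxy (symmDiff_eq_bot.mp h)
        have := T_card_big _ h0 hc2 hc4
        rw [if_neg hxy, if_neg hc2, if_neg hc4, this]
        norm_num

lemma sum_g (x : Finset (Fin n)) (hx : x ∈ V n) :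
    ∑ c ∈ V n, g x c = (n.choose 2 : ℝ) := by
  have h1 : ∑ c ∈ V n, g x c = (((V n).filter (fun c => (x ∆ c).card = 2)).card : ℝ) := by
    rw [Finset.card_filter]
    push_cast
    rfl
  rw [h1]
  have h2 : ((V n).filter (fun c => (x ∆ c).card = 2)).card = (powersetCard 2 (univ : Finset (Fin n))).card := by
    apply Finset.card_bij (fun c _ => x ∆ c)
    · intro c hc
      simp only [Finset.mem_filter] at hc
      rw [Finset.mem_powersetCard]
      exact ⟨Finset.subset_univ _, hc.2⟩
    · intro a _ b _ h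
      exact symmDiff_right_injective x h
    · intro S hS
      rw [Finset.mem_powersetCard] at hS
      refine ⟨x ∆ S, ?_, ?_⟩
      · simp only [Finset.mem_filter]
        refine ⟨mem_V.mpr (even_symmDiff (mem_V.mp hx) (by rw [hS.2]; decide)), ?_⟩
        rw [symmDiff_symmDiff_cancel_left]; exact hS.2
      · exact symmDiff_symmDiff_cancel_left _ _
  rw [h2, Finset.card_powersetCard]; simp

lemma g_comm (x c : Finset (Fin n)) : g x c = g c x := by
  unfold g; rw [symmDiff_comm]

/-- The main double counting inequality. -/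
theorem double_count (A : Finset (Finset (Fin n))) (hA : A ⊆ V n) :
    ((n.choose 2 : ℝ) - (n - 2)) ^ 2 * (A.card : ℝ) ^ 2 ≤
      ((V n).card : ℝ) * (6 * ∑ x ∈ A, ((A.filter (fun y => (x ∆ y).card = 4)).card : ℝ)
        + ((n.choose 2 : ℝ) + ((n:ℝ) - 2) ^ 2) * A.card) := by
  set w : ℝ := (n:ℝ) - 2 with hw
  set ind : Finset (Fin n) → ℝ := fun c => if c ∈ A then 1 else 0 with hind
  set d : Finset (Fin n) → ℝ := fun c => ∑ x ∈ A, g x c with hd
  have hindsum : ∑ c ∈ V n, ind c = (A.card : ℝ) := by
    rw [hind]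
    rw [Finset.sum_ite_mem, Finset.inter_eq_right.mpr hA]
    simp
  have hdsum : ∑ c ∈ V n, d c = (A.card : ℝ) * (n.choose 2 : ℝ) := by
    rw [hd]
    simp only
    rw [Finset.sum_comm]
    rw [Finset.sum_congr rfl (fun x hx => sum_g x (hA hx))]
    rw [Finset.sum_const, nsmul_eq_mul]
  have hcs := sq_sum_le_card_mul_sum_sq (s := V n) (f := fun c => d c - w * ind c)
  have hL : ∑ c ∈ V n, (d c - w * ind c) = ((n.choose 2 : ℝ) - w) * A.card := by
    rw [Finset.sum_sub_distrib, ← Finset.mul_sum, hindsum, hdsum]; ring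
  have hE : ∑ c ∈ V n, (d c - w * ind c) ^ 2
      = ∑ c ∈ V n, d c ^ 2 - 2 * w * ∑ c ∈ A, d c + w ^ 2 * A.card := by
    have h1 : ∀ c ∈ V n, (d c - w * ind c) ^ 2 = d c ^ 2 - 2 * w * (if c ∈ A then d c else 0) + w ^ 2 * ind c := by
      intro c _
      simp only [hind]
      by_cases h : c ∈ A
      · simp only [h, if_true]; ring
      · simp only [h, if_false]; ring
    rw [Finset.sum_congr rfl h1, Finset.sum_add_distrib, Finset.sum_sub_distrib, ← Finset.mul_sum,
      ← Finset.mul_sum, hindsum, Finset.sum_ite_mem, Finset.inter_eq_right.mpr hA]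
  have hdd : ∑ c ∈ V n, d c ^ 2 = ∑ x ∈ A, ∑ y ∈ A, ∑ c ∈ V n, g x c * g y c := by
    have : ∀ c ∈ V n, d c ^ 2 = ∑ x ∈ A, ∑ y ∈ A, g x c * g y c := by
      intro c _
      rw [hd]; simp only
      rw [sq, Finset.sum_mul_sum]
    rw [Finset.sum_congr rfl this, Finset.sum_comm]
    apply Finset.sum_congr rfl
    intro x _
    rw [Finset.sum_comm]
  have hb : ∑ c ∈ V n, d c ^ 2 ≤ ∑ x ∈ A, ∑ y ∈ A, ((if x = y then (n.choose 2 : ℝ) else 0)
      + (if (x ∆ y).card = 2 then 2 * w else 0)
      + (if (x ∆ y).card = 4 then 6 else 0)) := by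
    rw [hdd]
    apply Finset.sum_le_sum; intro x _
    apply Finset.sum_le_sum; intro y _
    exact sum_g_g x y
  have hb2 : ∑ x ∈ A, ∑ y ∈ A, ((if x = y then (n.choose 2 : ℝ) else 0)
      + (if (x ∆ y).card = 2 then 2 * w else 0)
      + (if (x ∆ y).card = 4 then 6 else 0))
      = (n.choose 2 : ℝ) * A.card + 2 * w * ∑ c ∈ A, d c
        + 6 * ∑ x ∈ A, ((A.filter (fun y => (x ∆ y).card = 4)).card : ℝ) := by
    have e1 : ∀ x ∈ A, ∑ y ∈ A, ((if x = y then (n.choose 2 : ℝ) else 0)
      + (if (x ∆ y).card = 2 then 2 * w else 0)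
      + (if (x ∆ y).card = 4 then (6:ℝ) else 0)) = (n.choose 2 : ℝ) + 2 * w * d x
        + 6 * ((A.filter (fun y => (x ∆ y).card = 4)).card : ℝ) := by
      intro x hx
      rw [Finset.sum_add_distrib, Finset.sum_add_distrib, Finset.sum_ite_eq, if_pos hx]
      congr 1
      · congr 1
        rw [hd]; simp only
        rw [Finset.mul_sum]
        apply Finset.sum_congr rfl
        intro y _
        rw [g_comm y x]
        unfold g
        by_cases h : (x ∆ y).card = 2 <;> simp [h]
      · rw [Finset.card_filter]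
        push_cast
        rw [Finset.mul_sum]
        apply Finset.sum_congr rfl
        intro y _
        by_cases h : (x ∆ y).card = 4 <;> simp [h]
    rw [Finset.sum_congr rfl e1, Finset.sum_add_distrib, Finset.sum_add_distrib, Finset.sum_const,
      ← Finset.mul_sum, ← Finset.mul_sum, nsmul_eq_mul]
    ring
  rw [hL, hE] at hcs
  rw [hb2] at hb
  have hVn : (0:ℝ) ≤ ((V n).card : ℝ) := by positivity
  calc ((n.choose 2 : ℝ) - w) ^ 2 * (A.card : ℝ) ^ 2
      = (((n.choose 2 : ℝ) - w) * A.card) ^ 2 := by ring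
    _ ≤ _ := hcs
    _ ≤ _ := by
        apply mul_le_mul_of_nonneg_left _ hVn
        linarith

end Pool.Agent.Helper378.Cube
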