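import Mathlib

open Finset

namespace Pool.Agent.Helper378.Select

variable {α : Type*} [Fintype α] [DecidableEq α]

/-- number of maps vanishing on a given set -/
lemma card_vanish (k : ℕ) (I : Finset α) :
    (((univ : Finset (α → Fin (k + 1))).filter (fun f => ∀ v ∈ I, f v = 0)).card : ℝ) * ((k:ℝ) + 1) ^ I.card
      = ((k:ℝ) + 1) ^ (Fintype.card α) := by
  have h1 : (univ : Finset (α → Fin (k + 1))).filter (fun f => ∀ v ∈ I, f v = 0)
      = Fintype.piFinset (fun v => if v ∈ I then ({0} : Finset (Fin (k+1))) else univ) := by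
    ext f
    simp only [Finset.mem_filter, Finset.mem_univ, true_and, Fintype.mem_piFinset]
    constructor
    · intro h v
      by_cases hv : v ∈ I
      · simp [hv, h v hv]
      · simp [hv]
    · intro h v hv
      have := h v
      simpa [hv] using this
  rw [h1, Fintype.card_piFinset]
  have h2 : ∀ v : α, ((if v ∈ I then ({0} : Finset (Fin (k+1))) else univ)).card
      = if v ∈ I then 1 else (k + 1) := by
    intro v
    by_cases hv : v ∈ I <;> simp [hv]
  rw [Finset.prod_congr rfl (fun v _ => h2 v)]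
  rw [Finset.prod_ite]
  simp only [Finset.prod_const_one, one_mul, Finset.prod_const]
  push_cast
  rw [← pow_add]
  congr 1
  have h3 : (univ.filter (fun x : α => x ∉ I)) = Iᶜ := by
    ext x; simp
  rw [h3, Finset.card_compl]
  have := Finset.card_le_univ I
  omega

theorem selection (V : Finset α) (bad : α → α → Prop) [DecidableRel bad]
    (k b s : ℕ) (hb : ∀ v ∈ V, (V.filter (fun u => bad v u)).card ≤ b)
    (hbk : 2 * b ≤ k + 1)
    (hbad : ∀ v, ¬ bad v v) (hV : 0 < V.card)
    (F : Finset (Finset α)) (hF : ∀ I ∈ F, I.card = s)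
    (hcount : (F.card : ℝ) * (4 * ((k:ℝ) + 1)) ≤ ((k:ℝ) + 1) ^ s) :
    ∃ X ⊆ V, (∀ v ∈ X, ∀ u ∈ X, ¬ bad v u) ∧ (V.card : ℝ) / (4 * ((k:ℝ) + 1)) ≤ X.card ∧
      ∀ I ∈ F, ¬ I ⊆ X := by
  classical
  set q : ℝ := (k:ℝ) + 1 with hq
  have hqpos : 0 < q := by positivity
  set M := Fintype.card α with hM
  set Xf : (α → Fin (k+1)) → Finset α := fun f => V.filter (fun v => f v = 0) with hXf
  set Bf : (α → Fin (k+1)) → Finset (α × α) := fun f =>
    (V ×ˢ V).filter (fun p => bad p.1 p.2 ∧ f p.1 = 0 ∧ f p.2 = 0) with hBf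
  set If : (α → Fin (k+1)) → Finset (Finset α) := fun f => F.filter (fun I => ∀ v ∈ I, f v = 0) with hIf
  -- sums
  have s1 : ∑ f, ((Xf f).card : ℝ) * q = V.card * q ^ M := by
    have : ∀ f : α → Fin (k+1), ((Xf f).card : ℝ) * q = ∑ v ∈ V, (if f v = 0 then q else 0) := by
      intro f
      rw [hXf]; simp only
      rw [Finset.card_filter]
      push_cast
      rw [Finset.sum_mul]
      apply Finset.sum_congr rfl
      intro v _
      by_cases h : f v = 0 <;> simp [h]
    rw [Finset.sum_congr rfl (fun f _ => this f), Finset.sum_comm]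
    have h2 : ∀ v ∈ V, ∑ f : α → Fin (k+1), (if f v = 0 then q else 0) = q ^ M := by
      intro v _
      have h3 := card_vanish (α := α) k {v}
      simp only [Finset.mem_singleton, forall_eq, Finset.card_singleton, pow_one] at h3
      rw [← hq, ← hM] at h3
      rw [← h3, Finset.card_filter]
      push_cast
      rw [Finset.sum_mul]
      apply Finset.sum_congr rfl
      intro f _
      by_cases h : f v = 0 <;> simp [h]
    rw [Finset.sum_congr rfl h2]
    simp
  have s2 : ∑ f, ((Bf f).card : ℝ) * q ^ 2 ≤ V.card * b * q ^ M := by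
    have : ∀ f : α → Fin (k+1), ((Bf f).card : ℝ) * q ^ 2
        = ∑ p ∈ (V ×ˢ V).filter (fun p => bad p.1 p.2), (if f p.1 = 0 ∧ f p.2 = 0 then q ^ 2 else 0) := by
      intro f
      rw [hBf]; simp only
      rw [← Finset.filter_filter, Finset.card_filter]
      push_cast
      rw [Finset.sum_mul]
      apply Finset.sum_congr rfl
      intro p _
      by_cases h : f p.1 = 0 ∧ f p.2 = 0 <;> simp [h]
    rw [Finset.sum_congr rfl (fun f _ => this f), Finset.sum_comm]
    have h2 : ∀ p ∈ (V ×ˢ V).filter (fun p => bad p.1 p.2),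
        ∑ f : α → Fin (k+1), (if f p.1 = 0 ∧ f p.2 = 0 then q ^ 2 else 0) = q ^ M := by
      intro p hp
      have hne : p.1 ≠ p.2 := by
        intro h
        have hb := (Finset.mem_filter.mp hp).2
        rw [h] at hb
        exact hbad _ hb
      have h3 := card_vanish (α := α) k {p.1, p.2}
      rw [Finset.card_pair hne, ← hq, ← hM] at h3
      rw [← h3, Finset.card_filter]
      push_cast
      rw [Finset.sum_mul]
      apply Finset.sum_congr rfl
      intro f _
      by_cases h : f p.1 = 0 ∧ f p.2 = 0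
      · have h' : ∀ v ∈ ({p.1, p.2} : Finset α), f v = 0 := by
          intro v hv
          rcases Finset.mem_insert.mp hv with rfl | hv
          · exact h.1
          · rw [Finset.mem_singleton.mp hv]; exact h.2
        rw [if_pos h, if_pos h', one_mul]
      · have h' : ¬ ∀ v ∈ ({p.1, p.2} : Finset α), f v = 0 := by
          intro h''
          exact h ⟨h'' _ (by simp), h'' _ (by simp)⟩
        rw [if_neg h, if_neg h', zero_mul]
    rw [Finset.sum_congr rfl h2, Finset.sum_const, nsmul_eq_mul]
    apply mul_le_mul_of_nonneg_right _ (by positivity)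
    have h4 : ((V ×ˢ V).filter (fun p => bad p.1 p.2)).card = ∑ v ∈ V, (V.filter (fun u => bad v u)).card := by
      rw [Finset.card_filter, Finset.sum_product]
      apply Finset.sum_congr rfl
      intro v _
      rw [Finset.card_filter]
    rw [h4]
    have h5 : ∑ v ∈ V, (V.filter (fun u => bad v u)).card ≤ ∑ _v ∈ V, b := Finset.sum_le_sum hb
    rw [Finset.sum_const, smul_eq_mul] at h5
    exact_mod_cast h5
  have s3 : ∑ f, ((If f).card : ℝ) * q ^ s = F.card * q ^ M := by
    have : ∀ f : α → Fin (k+1), ((If f).card : ℝ) * q ^ s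
        = ∑ I ∈ F, (if ∀ v ∈ I, f v = 0 then q ^ s else 0) := by
      intro f
      rw [hIf]; simp only
      rw [Finset.card_filter]
      push_cast
      rw [Finset.sum_mul]
      apply Finset.sum_congr rfl
      intro I _
      by_cases h : ∀ v ∈ I, f v = 0
      · rw [if_pos h, if_pos h, one_mul]
      · rw [if_neg h, if_neg h, zero_mul]
    rw [Finset.sum_congr rfl (fun f _ => this f), Finset.sum_comm]
    have h2 : ∀ I ∈ F, ∑ f : α → Fin (k+1), (if ∀ v ∈ I, f v = 0 then q ^ s else 0) = q ^ M := by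
      intro I hI
      have h3 := card_vanish (α := α) k I
      rw [hF I hI, ← hq, ← hM] at h3
      rw [← h3, Finset.card_filter]
      push_cast
      rw [Finset.sum_mul]
      apply Finset.sum_congr rfl
      intro f _
      by_cases h : ∀ v ∈ I, f v = 0
      · rw [if_pos h, if_pos h, one_mul]
      · rw [if_neg h, if_neg h, zero_mul]
    rw [Finset.sum_congr rfl h2, Finset.sum_const, nsmul_eq_mul]
  -- averaging
  set N : ℝ := (V.card : ℝ) with hN
  have hNpos : 0 < N := by rw [hN]; exact_mod_cast hV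
  have hΩ : (Fintype.card (α → Fin (k+1)) : ℝ) = q ^ M := by
    rw [Fintype.card_fun, Fintype.card_fin]; push_cast; rfl
  have hqM : 0 < q ^ M := by positivity
  have havg : ∑ _f : α → Fin (k+1), N / (4 * q)
      ≤ ∑ f : α → Fin (k+1), (((Xf f).card : ℝ) - (Bf f).card - N * (If f).card) := by
    rw [Finset.sum_const, nsmul_eq_mul, Finset.card_univ, hΩ, Finset.sum_sub_distrib, Finset.sum_sub_distrib,
      ← Finset.mul_sum]
    rw [← Finset.sum_mul] at s1 s2 s3
    set a1 := ∑ f : α → Fin (k+1), ((Xf f).card : ℝ) with ha1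
    set a2 := ∑ f : α → Fin (k+1), ((Bf f).card : ℝ) with ha2
    set a3 := ∑ f : α → Fin (k+1), ((If f).card : ℝ) with ha3
    have e1 : a1 = N * q ^ M / q := by rw [eq_div_iff hqpos.ne']; exact s1
    have e2 : a2 ≤ N * q ^ M / (2 * q) := by
      rw [le_div_iff₀ (by positivity)]
      have hbq : (2:ℝ) * b ≤ q := by rw [hq]; exact_mod_cast hbk
      have h6 : a2 * q ^ 2 ≤ N * b * q ^ M := s2
      have h7 : a2 * (2 * q) * q ≤ N * q ^ M * q := by
        calc a2 * (2 * q) * q = 2 * (a2 * q ^ 2) := by ring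
          _ ≤ 2 * (N * b * q ^ M) := by linarith
          _ = N * q ^ M * (2 * b) := by ring
          _ ≤ N * q ^ M * q := mul_le_mul_of_nonneg_left hbq (by positivity)
      exact le_of_mul_le_mul_right h7 hqpos
    have e3 : a3 ≤ q ^ M / (4 * q) := by
      rw [le_div_iff₀ (by positivity)]
      have hqs : 0 < q ^ s := by positivity
      have h8 : a3 * (4 * q) * q ^ s ≤ q ^ M * q ^ s := by
        calc a3 * (4 * q) * q ^ s = (a3 * q ^ s) * (4 * q) := by ring
          _ = (F.card * q ^ M) * (4 * q) := by rw [s3]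
          _ = (F.card * (4 * q)) * q ^ M := by ring
          _ ≤ q ^ s * q ^ M := mul_le_mul_of_nonneg_right hcount hqM.le
          _ = q ^ M * q ^ s := by ring
      exact le_of_mul_le_mul_right h8 hqs
    have e4 : N * a3 ≤ N * (q ^ M / (4 * q)) := mul_le_mul_of_nonneg_left e3 hNpos.le
    have e5 : q ^ M * (N / (4 * q)) = N * q ^ M / q - N * q ^ M / (2 * q) - N * (q ^ M / (4 * q)) := by
      field_simp; ring
    rw [e5, e1]
    linarith
  obtain ⟨f, _, hf⟩ := Finset.exists_le_of_sum_le (s := (univ : Finset (α → Fin (k+1))))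
    ⟨fun _ => 0, Finset.mem_univ _⟩ havg
  -- clean up
  refine ⟨(Xf f).filter (fun v => ∀ u ∈ Xf f, ¬ bad v u), ?_, ?_, ?_, ?_⟩
  · intro v hv
    exact (Finset.mem_filter.mp (Finset.mem_filter.mp hv).1).1
  · intro v hv u hu
    exact (Finset.mem_filter.mp hv).2 u (Finset.mem_filter.mp hu).1
  · have h1 : (Xf f).card ≤ ((Xf f).filter (fun v => ∀ u ∈ Xf f, ¬ bad v u)).card + (Bf f).card := by
      have h2 := Finset.card_filter_add_card_filter_not (s := Xf f) (fun v => ∀ u ∈ Xf f, ¬ bad v u)
      have h3 : ((Xf f).filter (fun v => ¬ ∀ u ∈ Xf f, ¬ bad v u)).card ≤ (Bf f).card := by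
        have h4 : (Xf f).filter (fun v => ¬ ∀ u ∈ Xf f, ¬ bad v u) ⊆ (Bf f).image Prod.fst := by
          intro v hv
          obtain ⟨hv1, hv2⟩ := Finset.mem_filter.mp hv
          push Not at hv2
          obtain ⟨u, hu, hbu⟩ := hv2
          rw [Finset.mem_image]
          refine ⟨(v, u), ?_, rfl⟩
          obtain ⟨hvV, hv0⟩ := Finset.mem_filter.mp hv1
          obtain ⟨huV, hu0⟩ := Finset.mem_filter.mp hu
          rw [hBf]
          simp only [Finset.mem_filter, Finset.mem_product]
          exact ⟨⟨hvV, huV⟩, hbu, hv0, hu0⟩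
        exact (Finset.card_le_card h4).trans Finset.card_image_le
      omega
    have h5 : ((Xf f).card : ℝ) ≤ (((Xf f).filter (fun v => ∀ u ∈ Xf f, ¬ bad v u)).card : ℝ) + (Bf f).card := by
      exact_mod_cast h1
    have h6 : 0 ≤ N * ((If f).card : ℝ) := by positivity
    linarith
  · intro I hI hsub
    have h1 : I ∈ If f := by
      rw [hIf]; simp only [Finset.mem_filter]
      refine ⟨hI, ?_⟩
      intro v hv
      exact (Finset.mem_filter.mp (Finset.mem_filter.mp (hsub hv)).1).2
    have h2 : (1:ℝ) ≤ ((If f).card : ℝ) := by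
      exact_mod_cast Finset.card_pos.mpr ⟨I, h1⟩
    have h3 : ((Xf f).card : ℝ) ≤ N := by
      rw [hN]; exact_mod_cast Finset.card_filter_le _ _
    have h4 : 0 < N / (4 * q) := by positivity
    have h5 : N ≤ N * ((If f).card : ℝ) := le_mul_of_one_le_right hNpos.le h2
    have h6 : (0:ℝ) ≤ (Bf f).card := by positivity
    linarith

end Pool.Agent.Helper378.Select
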