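import Pool.Agent.Helper378.KW
import Pool.Agent.Helper378.Cube
import Pool.Agent.Helper378.Select

open Finset symmDiff

namespace Pool.Agent.Helper378.Final

open Pool.Agent.Helper378.Cube Pool.Agent.Helper378.KW Pool.Agent.Helper378.Select

/-- distance four adjacency -/
def adj4 {n : ℕ} (x y : Finset (Fin n)) : Prop := (x ∆ y).card = 4

instance {n : ℕ} : DecidableRel (adj4 (n := n)) := fun x y => by unfold adj4; infer_instance

/-- distance two adjacency -/
def adj2 {n : ℕ} (x y : Finset (Fin n)) : Prop := (x ∆ y).card = 2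

instance {n : ℕ} : DecidableRel (adj2 (n := n)) := fun x y => by unfold adj2; infer_instance

lemma card_V (n : ℕ) (hn : 1 ≤ n) : (V n).card = 2 ^ (n - 1) := by
  have h1 : (V n).card + ((univ : Finset (Finset (Fin n))).filter (fun x => ¬ Even x.card)).card = 2 ^ n := by
    unfold V
    rw [Finset.card_filter_add_card_filter_not]
    simp
  have h2 : (V n).card = ((univ : Finset (Finset (Fin n))).filter (fun x => ¬ Even x.card)).card := by
    let a : Finset (Fin n) := {⟨0, hn⟩}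
    have ha : a.card = 1 := Finset.card_singleton _
    apply Finset.card_bij (fun x _ => x ∆ a)
    · intro x hx
      simp only [Finset.mem_filter, Finset.mem_univ, true_and]
      have := card_symmDiff_add x a
      rw [mem_V, Nat.even_iff] at hx
      rw [Nat.even_iff]
      omega
    · intro x _ y _ h
      exact symmDiff_left_injective a h
    · intro y hy
      simp only [Finset.mem_filter, Finset.mem_univ, true_and] at hy
      refine ⟨y ∆ a, ?_, symmDiff_symmDiff_cancel_right _ _⟩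
      have := card_symmDiff_add y a
      rw [mem_V]
      rw [Nat.even_iff] at *
      omega
  have h3 : 2 ^ n = 2 * 2 ^ (n - 1) := by
    rw [← pow_succ']; congr 1; omega
  omega

/-- number of even sets at distance two -/
lemma deg2 {n : ℕ} (v : Finset (Fin n)) (hv : v ∈ V n) :
    ((V n).filter (fun u => adj2 v u)).card = n.choose 2 := by
  have h := sum_g v hv
  have h1 : ∑ c ∈ V n, g v c = (((V n).filter (fun c => (v ∆ c).card = 2)).card : ℝ) := by
    rw [Finset.card_filter]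
    push_cast
    rfl
  rw [h1] at h
  have h2 : ((V n).filter (fun c => (v ∆ c).card = 2)).card = n.choose 2 := by exact_mod_cast h
  rw [← h2]
  rfl

lemma supersat (m E n : ℕ) (hn : n = 2 ^ m) (hm : 3 ≤ m) (hE : 1 ≤ E)
    (hcard : (V n).card = E * n ^ 4)
    (A : Finset (Finset (Fin n))) (hA : A ⊆ V n) (hAR : 64 * E * n ^ 2 < A.card) :
    ∃ v ∈ A, (1 / (256 * (E:ℝ))) * (A.card : ℝ) ≤ ((A.filter (fun u => adj4 v u)).card : ℝ) := by
  by_contra hcon
  push Not at hcon
  have hn8 : 8 ≤ n := by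
    rw [hn]
    calc 8 = 2 ^ 3 := by norm_num
      _ ≤ 2 ^ m := Nat.pow_le_pow_right (by norm_num) hm
  have hdc := double_count A hA
  have hApos : 0 < A.card := by omega
  have hEpos : (0:ℝ) < E := by exact_mod_cast hE
  set a : ℝ := (A.card : ℝ) with ha
  have hapos : 0 < a := by rw [ha]; exact_mod_cast hApos
  have hsum : ∑ x ∈ A, ((A.filter (fun y => (x ∆ y).card = 4)).card : ℝ) ≤ a * (1 / (256 * (E:ℝ)) * a) := by
    calc ∑ x ∈ A, ((A.filter (fun y => (x ∆ y).card = 4)).card : ℝ)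
        ≤ ∑ _x ∈ A, (1 / (256 * (E:ℝ)) * a) := by
          apply Finset.sum_le_sum
          intro x hx
          exact (hcon x hx).le
      _ = a * (1 / (256 * (E:ℝ)) * a) := by rw [Finset.sum_const, nsmul_eq_mul]
  have hch : (n.choose 2 : ℝ) = (n:ℝ) * (n - 1) / 2 := Nat.cast_choose_two ℝ n
  have hN : ((V n).card : ℝ) = E * (n:ℝ) ^ 4 := by rw [hcard]; push_cast; ring
  rw [hN, hch] at hdc
  set x : ℝ := (n:ℝ) with hx
  have hx8 : (8:ℝ) ≤ x := by rw [hx]; exact_mod_cast hn8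
  have haR : 64 * (E:ℝ) * x ^ 2 < a := by rw [ha, hx]; exact_mod_cast hAR
  -- q ≥ x^2/4
  have hq : x ^ 2 / 4 ≤ x * (x - 1) / 2 - (x - 2) := by nlinarith
  have hq2 : x ^ 4 / 16 ≤ (x * (x - 1) / 2 - (x - 2)) ^ 2 := by
    have h0 : 0 ≤ x ^ 2 / 4 := by positivity
    calc x ^ 4 / 16 = (x ^ 2 / 4) ^ 2 := by ring
      _ ≤ _ := pow_le_pow_left₀ h0 hq 2
  have hr : x * (x - 1) / 2 + (x - 2) ^ 2 ≤ 3 / 2 * x ^ 2 := by nlinarith
  have hx4 : 0 < x ^ 4 := by positivity
  have hmain : x ^ 4 / 16 * a ^ 2 ≤ E * x ^ 4 * (6 * (a * (1 / (256 * (E:ℝ)) * a)) + 3 / 2 * x ^ 2 * a) := by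
    calc x ^ 4 / 16 * a ^ 2 ≤ (x * (x - 1) / 2 - (x - 2)) ^ 2 * a ^ 2 :=
          mul_le_mul_of_nonneg_right hq2 (by positivity)
      _ ≤ _ := hdc
      _ ≤ _ := by
          apply mul_le_mul_of_nonneg_left _ (by positivity)
          apply add_le_add
          · exact mul_le_mul_of_nonneg_left hsum (by norm_num)
          · exact mul_le_mul_of_nonneg_right hr hapos.le
  have h1 : E * x ^ 4 * (6 * (a * (1 / (256 * (E:ℝ)) * a)) + 3 / 2 * x ^ 2 * a)
      = x ^ 4 * a * (6 / 256 * a + 3 / 2 * (E * x ^ 2)) := by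
    field_simp
  rw [h1] at hmain
  have h2 : x ^ 4 * a * (6 / 256 * a + 3 / 2 * (E * x ^ 2)) < x ^ 4 * a * (6 / 256 * a + 3 / 2 * (a / 64)) := by
    apply mul_lt_mul_of_pos_left _ (by positivity)
    linarith
  have h3 : x ^ 4 * a * (6 / 256 * a + 3 / 2 * (a / 64)) ≤ x ^ 4 / 16 * a ^ 2 := by
    have : 0 < x ^ 4 * a ^ 2 := by positivity
    nlinarith
  linarith

/-- The combinatorial heart. -/
theorem comb (m : ℕ) (hm : 5 ≤ m) :
    ∃ (E : ℕ) (X : Finset (Finset (Fin (2 ^ m)))), 1 ≤ E ∧ X ⊆ V (2 ^ m) ∧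
      (∀ v ∈ X, ∀ u ∈ X, ¬ adj2 v u) ∧
      (E : ℝ) * (2 ^ m : ℝ) ^ 2 / 4 ≤ X.card ∧
      ∀ T ⊆ X, (∀ v ∈ T, ∀ u ∈ T, ¬ adj4 v u) → (T.card : ℝ) < 8192 * (m:ℝ) ^ 2 * E := by
  -- parameters
  obtain ⟨n, hn⟩ : ∃ n : ℕ, n = 2 ^ m := ⟨_, rfl⟩
  have hmn : 4 * m + 1 ≤ n := by
    rw [hn]
    have h : ∀ j : ℕ, 4 * (j + 5) + 1 ≤ 2 ^ (j + 5) := by
      intro j
      induction j with
      | zero => norm_num
      | succ j ih =>
        have : 2 ^ (j + 1 + 5) = 2 * 2 ^ (j + 5) := by rw [← pow_succ']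
        rw [this]; omega
    have := h (m - 5)
    have h5 : m - 5 + 5 = m := by omega
    rw [h5] at this
    exact this
  set E : ℕ := 2 ^ (n - 1 - 4 * m) with hE
  have hE1 : 1 ≤ E := Nat.one_le_two_pow
  have hcard : (V n).card = E * n ^ 4 := by
    rw [card_V n (by omega), hE]
    conv_rhs => rw [hn]
    rw [← pow_mul, ← pow_add]
    congr 1
    rw [← hn]
    omega
  rw [← hn]
  have hxn : (2 ^ m : ℝ) = (n:ℝ) := by rw [hn]; push_cast; rfl
  rw [hxn]
  have hn32 : 32 ≤ n := by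
    rw [hn]
    calc 32 = 2 ^ 5 := by norm_num
      _ ≤ 2 ^ m := Nat.pow_le_pow_right (by norm_num) hm
  set x : ℝ := (n:ℝ) with hx
  have hx32 : (32:ℝ) ≤ x := by rw [hx]; exact_mod_cast hn32
  have hxpos : 0 < x := by linarith
  have hEr : (1:ℝ) ≤ (E:ℝ) := by exact_mod_cast hE1
  have hEpos : (0:ℝ) < E := by linarith
  set lam : ℝ := 4 / x ^ 2 with hlam
  have hlam0 : 0 < lam := by positivity
  have hlam1 : lam ≤ 1 := by
    rw [hlam, div_le_one (by positivity)]
    nlinarith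
  set R : ℕ := 64 * E * n ^ 2 with hR
  set K : ℕ := 2048 * m * E with hK
  set N : ℕ := E * n ^ 4 with hN
  set s : ℕ := 8192 * m ^ 2 * E with hs
  set β : ℝ := 1 / (256 * (E:ℝ)) with hβ
  have hm1 : (1:ℝ) ≤ m := by
    have : 1 ≤ m := by omega
    exact_mod_cast this
  -- KW
  have hkw := KW_bound (adj4 (n := n)) (V n) (lam := lam) (β := β) hlam0.le (by positivity)
    (by rw [hβ, div_le_one (by positivity)]; linarith) R K N
    (by rw [hR]; have : 1 ≤ n ^ 2 := Nat.one_le_pow _ _ (by omega)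
        calc 1 ≤ 64 * E * 1 := by omega
          _ ≤ 64 * E * n ^ 2 := Nat.mul_le_mul_left _ this)
    (by
        rw [hR, hN]
        have : 64 ≤ n ^ 2 := by nlinarith
        calc 64 * E * n ^ 2 = E * (64 * n ^ 2) := by ring
          _ ≤ E * (n ^ 2 * n ^ 2) := Nat.mul_le_mul_left _ (Nat.mul_le_mul_right _ this)
          _ = E * n ^ 4 := by ring)
    (by rw [hcard])
    (by
        intro A hA hAR
        exact supersat m E n hn (by omega) hE1 hcard A hA hAR)
    (by intro v; unfold adj4; simp)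
    (by
        -- numeric condition
        have hb := one_sub_pow_le (1 / (512 * (E:ℝ))) (by positivity)
          (by rw [div_le_one (by positivity)]; linarith) (512 * E)
        have hb1 : (1 - 1 / (512 * (E:ℝ))) ^ (512 * E) * 2 ≤ 1 := by
          have e : (1:ℝ) + ((512 * E : ℕ) : ℝ) * (1 / (512 * (E:ℝ))) = 2 := by
            push_cast; field_simp; norm_num
          rw [e] at hb; exact hb
        have hb2 : (1 - 1 / (512 * (E:ℝ))) ^ (512 * E) ≤ 1 / 2 := by linarith
        have hb0 : 0 ≤ 1 - 1 / (512 * (E:ℝ)) := by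
          rw [sub_nonneg, div_le_one (by positivity)]; linarith
        have hb3 : (1 - β / 2) ^ K ≤ 1 / x ^ 4 := by
          have e1 : 1 - β / 2 = 1 - 1 / (512 * (E:ℝ)) := by rw [hβ]; field_simp; ring
          have e2 : K = (512 * E) * (4 * m) := by rw [hK]; ring
          rw [e1, e2, pow_mul]
          calc ((1 - 1 / (512 * (E:ℝ))) ^ (512 * E)) ^ (4 * m) ≤ (1 / 2) ^ (4 * m) :=
                pow_le_pow_left₀ (pow_nonneg hb0 _) hb2 _
            _ = 1 / x ^ 4 := by
                rw [hx, hn]; push_cast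
                rw [← pow_mul, mul_comm m 4, one_div_pow]
        have hNr : (N:ℝ) = E * x ^ 4 := by rw [hN]; push_cast; rfl
        have hKr : (K:ℝ) = 2048 * m * E := by rw [hK]; push_cast; rfl
        have hx4 : 0 < x ^ 4 := by positivity
        have hx42 : (2:ℝ) ≤ x ^ 4 := by
          have : (32:ℝ) ^ 4 ≤ x ^ 4 := pow_le_pow_left₀ (by norm_num) hx32 4
          norm_num at this; linarith
        calc lam * (1 - β / 2) ^ K * (2 * N + K) ≤ 1 * (1 / x ^ 4) * (2 * N + K) := by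
              apply mul_le_mul_of_nonneg_right _ (by positivity)
              apply mul_le_mul hlam1 hb3 _ (by norm_num)
              apply pow_nonneg
              have : β / 2 ≤ 1 := by
                rw [hβ]; rw [div_div, div_le_one (by positivity)]; linarith
              linarith
          _ = 2 * E + K / x ^ 4 := by rw [hNr]; field_simp
          _ ≤ 2 * E + K / 2 := by
              have : (K:ℝ) / x ^ 4 ≤ K / 2 := div_le_div_of_nonneg_left (by positivity) (by norm_num) hx42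
              linarith
          _ ≤ K := by
              rw [hKr]
              nlinarith)
    (V n) (Finset.Subset.refl _)
  -- bound on Z
  have hZ : Z (adj4 (n := n)) lam (V n) ≤ 2 ^ s := by
    refine hkw.trans ?_
    rw [hcard]
    have hRr : (R:ℝ) = 64 * E * x ^ 2 := by rw [hR]; push_cast; rfl
    have hNr : ((E * n ^ 4 : ℕ) : ℝ) = E * x ^ 4 := by push_cast; rfl
    have hf1 : (1 + lam) ^ R ≤ 2 ^ (512 * E) := by
      have h1 : (1 + lam) ≤ Real.exp lam := by
        have := Real.add_one_le_exp lam; linarith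
      calc (1 + lam) ^ R ≤ (Real.exp lam) ^ R := pow_le_pow_left₀ (by linarith) h1 _
        _ = Real.exp (R * lam) := by rw [← Real.exp_nat_mul]
        _ = Real.exp ((256 * E : ℕ) * 1) := by
            congr 1
            rw [hRr, hlam]; push_cast; field_simp; norm_num
        _ = (Real.exp 1) ^ (256 * E) := by rw [Real.exp_nat_mul]
        _ ≤ 4 ^ (256 * E) := by
            apply pow_le_pow_left₀ (Real.exp_pos _).le
            have := Real.exp_one_lt_d9; linarith
        _ = 2 ^ (512 * E) := by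
            rw [show (4:ℝ) = 2 ^ 2 by norm_num, ← pow_mul]; congr 1; ring
    have hf2 : (((R:ℝ) + ((E * n ^ 4 : ℕ) : ℝ)) / R) ^ K ≤ 2 ^ (2 * m * K) := by
      have h1 : ((R:ℝ) + ((E * n ^ 4 : ℕ) : ℝ)) / R ≤ x ^ 2 := by
        rw [hNr, hRr, div_le_iff₀ (by positivity)]
        have : 64 * E * x ^ 2 + E * x ^ 4 = E * x ^ 2 * (64 + x ^ 2) := by ring
        rw [this]
        have h2 : x ^ 2 * (64 * E * x ^ 2) = E * x ^ 2 * (64 * x ^ 2) := by ring
        rw [h2]
        apply mul_le_mul_of_nonneg_left _ (by positivity)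
        nlinarith
      have h3 : x ^ 2 = 2 ^ (2 * m) := by
        rw [hx, hn]; push_cast; rw [← pow_mul]; congr 1; ring
      calc (((R:ℝ) + ((E * n ^ 4 : ℕ) : ℝ)) / R) ^ K ≤ (x ^ 2) ^ K :=
            pow_le_pow_left₀ (by positivity) h1 _
        _ = 2 ^ (2 * m * K) := by rw [h3, ← pow_mul]
    calc (1 + lam) ^ R * (((R:ℝ) + ((E * n ^ 4 : ℕ) : ℝ)) / R) ^ K
        ≤ 2 ^ (512 * E) * 2 ^ (2 * m * K) := by
          apply mul_le_mul hf1 hf2 (by positivity) (by positivity)
      _ = 2 ^ (512 * E + 2 * m * K) := by rw [← pow_add]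
      _ ≤ 2 ^ s := by
          apply pow_le_pow_right₀ (by norm_num)
          rw [hs, hK]
          have hmm : 1 ≤ m ^ 2 := Nat.one_le_pow _ _ (by omega)
          have : 512 * E ≤ 4096 * m ^ 2 * E := by
            apply Nat.mul_le_mul_right; omega
          calc 512 * E + 2 * m * (2048 * m * E) = 512 * E + 4096 * m ^ 2 * E := by ring
            _ ≤ 4096 * m ^ 2 * E + 4096 * m ^ 2 * E := by omega
            _ = 8192 * m ^ 2 * E := by ring
  -- count
  set F : Finset (Finset (Finset (Fin n))) :=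
    ((V n).powersetCard s).filter (fun I => Indep (adj4 (n := n)) I) with hF
  have hcnt := count_le_Z (adj4 (n := n)) hlam0.le (V n) s
  rw [← hF] at hcnt
  have hn2 : n ^ 2 - 1 + 1 = n ^ 2 := Nat.sub_add_cancel (Nat.one_le_pow _ _ (by omega))
  have hn2r : (((n ^ 2 - 1 : ℕ) : ℝ) + 1) = x ^ 2 := by
    rw [hx]; exact_mod_cast hn2
  have hcount : (F.card : ℝ) * (4 * (((n ^ 2 - 1 : ℕ) : ℝ) + 1)) ≤ (((n ^ 2 - 1 : ℕ) : ℝ) + 1) ^ s := by
    rw [hn2r]
    have h1 : (F.card : ℝ) * lam ^ s ≤ 2 ^ s := hcnt.trans hZ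
    have h2 : (F.card : ℝ) * 2 ^ s ≤ (x ^ 2) ^ s := by
      have e1 : lam ^ s * (x ^ 2) ^ s = 2 ^ s * 2 ^ s := by
        rw [← mul_pow, ← mul_pow, hlam]
        congr 1
        field_simp; norm_num
      have h3 : (F.card : ℝ) * lam ^ s * (x ^ 2) ^ s ≤ 2 ^ s * (x ^ 2) ^ s :=
        mul_le_mul_of_nonneg_right h1 (by positivity)
      have h4 : (F.card : ℝ) * 2 ^ s * 2 ^ s ≤ (x ^ 2) ^ s * 2 ^ s := by
        calc (F.card : ℝ) * 2 ^ s * 2 ^ s = (F.card : ℝ) * (lam ^ s * (x ^ 2) ^ s) := by rw [e1]; ring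
          _ = (F.card : ℝ) * lam ^ s * (x ^ 2) ^ s := by ring
          _ ≤ 2 ^ s * (x ^ 2) ^ s := h3
          _ = (x ^ 2) ^ s * 2 ^ s := by ring
      exact le_of_mul_le_mul_right h4 (by positivity)
    have h5 : 4 * x ^ 2 ≤ 2 ^ s := by
      have e3 : 4 * x ^ 2 = 2 ^ (2 * m + 2) := by
        rw [hx, hn]; push_cast; rw [← pow_mul, pow_add]; ring
      rw [e3]
      apply pow_le_pow_right₀ (by norm_num)
      rw [hs]
      have : m ≤ m ^ 2 := Nat.le_self_pow (by norm_num) m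
      calc 2 * m + 2 ≤ 8192 * m ^ 2 := by omega
        _ = 8192 * m ^ 2 * 1 := by ring
        _ ≤ 8192 * m ^ 2 * E := Nat.mul_le_mul_left _ hE1
    calc (F.card : ℝ) * (4 * x ^ 2) ≤ (F.card : ℝ) * 2 ^ s :=
          mul_le_mul_of_nonneg_left h5 (by positivity)
      _ ≤ _ := h2
  obtain ⟨X, hXV, hXbad, hXcard, hXF⟩ := selection (V n) (adj2 (n := n)) (n ^ 2 - 1) (n.choose 2) s
    (fun v hv => (deg2 v hv).le)
    (by
      rw [hn2, Nat.choose_two_right]
      have h1 : 2 * (n * (n - 1) / 2) ≤ n * (n - 1) := Nat.mul_div_le _ _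
      have h2 : n * (n - 1) ≤ n ^ 2 := by
        rw [sq]; exact Nat.mul_le_mul_left _ (Nat.sub_le _ _)
      omega)
    (by intro v; unfold adj2; simp)
    (by
      rw [hcard]
      have : 0 < n ^ 4 := by positivity
      exact Nat.mul_pos hE1 this)
    F
    (by
      intro I hI
      rw [hF] at hI
      exact (Finset.mem_powersetCard.mp (Finset.mem_filter.mp hI).1).2)
    hcount
  refine ⟨E, X, hE1, hXV, hXbad, ?_, ?_⟩
  · refine le_trans (le_of_eq ?_) hXcard
    rw [hcard, hn2r]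
    have hNr : (N:ℝ) = E * x ^ 4 := by rw [hN]; push_cast; rfl
    rw [hNr]
    field_simp
  · intro T hTX hTind
    by_contra hcon
    push Not at hcon
    have hsT : s ≤ T.card := by
      rw [hs]
      exact_mod_cast hcon
    obtain ⟨I, hIT, hIs⟩ := Finset.exists_subset_card_eq hsT
    apply hXF I _ (hIT.trans hTX)
    rw [hF, Finset.mem_filter, Finset.mem_powersetCard]
    exact ⟨⟨(hIT.trans hTX).trans hXV, hIs⟩, fun v hv u hu => hTind v (hIT hv) u (hIT hu)⟩

/-- the point of a subset -/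
noncomputable def pt {n : ℕ} (x : Finset (Fin n)) : EuclideanSpace ℝ (Fin n) :=
  WithLp.toLp 2 (fun i => if i ∈ x then (1 / 2 : ℝ) else 0)

lemma dist_pt {n : ℕ} (x y : Finset (Fin n)) : dist (pt x) (pt y) = Real.sqrt ((x ∆ y).card / 4) := by
  rw [EuclideanSpace.dist_eq]
  congr 1
  have h1 : ∀ i : Fin n, dist ((pt x) i) ((pt y) i) ^ 2 = if i ∈ x ∆ y then (1 / 4 : ℝ) else 0 := by
    intro i
    unfold pt
    simp only [Real.dist_eq]
    by_cases hx : i ∈ x <;> by_cases hy : i ∈ y <;> simp [hx, hy, Finset.mem_symmDiff] <;> norm_num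
  rw [Finset.sum_congr rfl (fun i _ => h1 i), Finset.sum_ite_mem, Finset.univ_inter, Finset.sum_const,
    nsmul_eq_mul]
  ring

lemma pt_inj {n : ℕ} : Function.Injective (pt (n := n)) := by
  intro x y h
  have h1 : dist (pt x) (pt y) = 0 := by rw [h, dist_self]
  rw [dist_pt, Real.sqrt_eq_zero (by positivity)] at h1
  have h2 : ((x ∆ y).card : ℝ) = 0 := by linarith
  have h3 : (x ∆ y).card = 0 := by exact_mod_cast h2
  rw [Finset.card_eq_zero] at h3
  exact symmDiff_eq_bot.mp h3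

theorem main :
    ¬ (∃ c : ℝ, 0 < c ∧ ∀ d : ℕ, 1 ≤ d →
      ∀ S : Finset (EuclideanSpace ℝ (Fin d)),
        (∀ x ∈ S, ∀ y ∈ S, x ≠ y → 1 ≤ dist x y) →
        ∃ T ⊆ S, c * (S.card : ℝ) / (d : ℝ) ≤ (T.card : ℝ) ∧
          ∀ x ∈ T, ∀ y ∈ T, x ≠ y → 1 < dist x y) := by
  classical
  rintro ⟨c, hc, hall⟩
  -- choose m
  obtain ⟨m, hm5, hmc⟩ : ∃ m : ℕ, 5 ≤ m ∧ 32768 * (m:ℝ) ^ 2 ≤ c * 2 ^ m := by
    have ht := tendsto_pow_const_div_const_pow_of_one_lt 2 (r := (2:ℝ)) (by norm_num)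
    have hev := ht.eventually (gt_mem_nhds (show (0:ℝ) < c / 32768 by positivity))
    obtain ⟨M, hM⟩ := (hev.and (Filter.eventually_ge_atTop 5)).exists
    refine ⟨M, hM.2, ?_⟩
    have h2 : (0:ℝ) < 2 ^ M := by positivity
    have h3 := hM.1
    rw [div_lt_div_iff₀ h2 (by norm_num)] at h3
    linarith
  obtain ⟨E, X, hE1, hXV, hX2, hXcard, hXT⟩ := comb m hm5
  have hEpos : (0:ℝ) < E := by exact_mod_cast hE1
  set S : Finset (EuclideanSpace ℝ (Fin (2 ^ m))) := X.image pt with hS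
  have hScard : S.card = X.card := Finset.card_image_of_injective _ pt_inj
  obtain ⟨T, hTS, hTcard, hTsep⟩ := hall (2 ^ m) Nat.one_le_two_pow S (by
    intro a ha b hb hab
    obtain ⟨x, hx, rfl⟩ := Finset.mem_image.mp ha
    obtain ⟨y, hy, rfl⟩ := Finset.mem_image.mp hb
    rw [dist_pt, Real.one_le_sqrt]
    have hne : x ≠ y := fun h => hab (by rw [h])
    have h0 : (x ∆ y).card ≠ 0 := by
      intro h; rw [Finset.card_eq_zero] at h; exact hne (symmDiff_eq_bot.mp h)
    have h2 : (x ∆ y).card ≠ 2 := hX2 x hx y hy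
    have he := even_symmDiff (mem_V.mp (hXV hx)) (mem_V.mp (hXV hy))
    have h4 : 4 ≤ (x ∆ y).card := by
      rw [Nat.even_iff] at he; omega
    have h4' : (4:ℝ) ≤ ((x ∆ y).card : ℝ) := by exact_mod_cast h4
    linarith)
  set T' := X.filter (fun x => pt x ∈ T) with hT'
  have hTT' : T.card ≤ T'.card := by
    have : T ⊆ T'.image pt := by
      intro a ha
      obtain ⟨x, hx, rfl⟩ := Finset.mem_image.mp (hTS ha)
      exact Finset.mem_image_of_mem _ (Finset.mem_filter.mpr ⟨hx, ha⟩)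
    exact (Finset.card_le_card this).trans Finset.card_image_le
  have hT'lt := hXT T' (Finset.filter_subset _ _) (by
    intro v hv u hu h4
    unfold adj4 at h4
    have hne : pt v ≠ pt u := by
      intro h
      have := pt_inj h
      rw [this] at h4
      simp at h4
    have := hTsep _ (Finset.mem_filter.mp hv).2 _ (Finset.mem_filter.mp hu).2 hne
    rw [dist_pt, h4] at this
    norm_num at this)
  have hTT'r : (T.card : ℝ) ≤ T'.card := by exact_mod_cast hTT'
  have h2m : (0:ℝ) < 2 ^ m := by positivity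
  rw [hScard] at hTcard
  push_cast at hTcard
  rw [div_le_iff₀ h2m] at hTcard
  have h1 : c * ((E:ℝ) * (2 ^ m) ^ 2 / 4) ≤ T.card * 2 ^ m :=
    (mul_le_mul_of_nonneg_left hXcard hc.le).trans hTcard
  have h2 : (T.card : ℝ) * 2 ^ m < 8192 * (m:ℝ) ^ 2 * E * 2 ^ m :=
    mul_lt_mul_of_pos_right (by linarith) h2m
  have h3 : (32768 * (m:ℝ) ^ 2) * (E * 2 ^ m / 4) ≤ (c * 2 ^ m) * (E * 2 ^ m / 4) :=
    mul_le_mul_of_nonneg_right hmc (by positivity)
  nlinarith

end Pool.Agent.Helper378.Final
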