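import Mathlib

open Finset

namespace Pool.Agent.Helper378.KW

section KW

variable {α : Type*} [DecidableEq α] (adj : α → α → Prop) [DecidableRel adj]

/-- a finite set with no adjacent pair -/
def Indep (I : Finset α) : Prop := ∀ x ∈ I, ∀ y ∈ I, ¬ adj x y

instance (I : Finset α) : Decidable (Indep adj I) := by
  unfold Indep; infer_instance

/-- the independence polynomial restricted to a finite set -/
noncomputable def Z (lam : ℝ) (A : Finset α) : ℝ :=
  ∑ I ∈ A.powerset.filter (fun I => Indep adj I), lam ^ I.card

lemma Z_nonneg {lam : ℝ} (hl : 0 ≤ lam) (A : Finset α) : 0 ≤ Z adj lam A :=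
  Finset.sum_nonneg fun _ _ => pow_nonneg hl _

lemma Z_le_pow {lam : ℝ} (hl : 0 ≤ lam) (A : Finset α) : Z adj lam A ≤ (1 + lam) ^ A.card := by
  unfold Z
  calc ∑ I ∈ A.powerset.filter (fun I => Indep adj I), lam ^ I.card
      ≤ ∑ I ∈ A.powerset, lam ^ I.card := by
        apply Finset.sum_le_sum_of_subset_of_nonneg (Finset.filter_subset _ _)
        intro i _ _; exact pow_nonneg hl _
    _ = ∑ I ∈ A.powerset, lam ^ I.card * 1 ^ (A.card - I.card) := by simp
    _ = (lam + 1) ^ A.card := Finset.sum_pow_mul_eq_add_pow _ _ _
    _ = (1 + lam) ^ A.card := by rw [add_comm]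

lemma Z_rec {lam : ℝ} (hl : 0 ≤ lam) (A : Finset α) (v : α) (hv : v ∈ A) :
    Z adj lam A ≤ Z adj lam (A.erase v) + lam * Z adj lam ((A.erase v).filter (fun u => ¬ adj v u)) := by
  unfold Z
  rw [← Finset.sum_filter_add_sum_filter_not (A.powerset.filter (fun I => Indep adj I)) (fun I => v ∉ I)]
  apply add_le_add
  · apply Finset.sum_le_sum_of_subset_of_nonneg
    · intro I hI
      simp only [Finset.mem_filter, Finset.mem_powerset] at hI ⊢
      refine ⟨?_, hI.1.2⟩
      intro x hx
      refine Finset.mem_erase.mpr ⟨?_, hI.1.1 hx⟩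
      rintro rfl; exact hI.2 hx
    · intro i _ _; exact pow_nonneg hl _
  · set F := (A.powerset.filter (fun I => Indep adj I)).filter (fun I => ¬ v ∉ I) with hF
    have h1 : ∑ I ∈ F, lam ^ I.card = ∑ I ∈ F, lam * lam ^ (I.erase v).card := by
      apply Finset.sum_congr rfl
      intro I hI
      have hvI : v ∈ I := by
        simp only [hF, Finset.mem_filter, not_not] at hI
        exact hI.2
      rw [← pow_succ', Finset.card_erase_add_one hvI]
    rw [h1, ← Finset.mul_sum]
    apply mul_le_mul_of_nonneg_left _ hl
    have hinj : Set.InjOn (fun I : Finset α => I.erase v) (F : Set (Finset α)) := by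
      intro I hI J hJ hIJ
      have hvI : v ∈ I := by
        simp only [hF, Finset.coe_filter, Set.mem_ofPred_eq, not_not] at hI
        exact hI.2
      have hvJ : v ∈ J := by
        simp only [hF, Finset.coe_filter, Set.mem_ofPred_eq, not_not] at hJ
        exact hJ.2
      have := congrArg (insert v) hIJ
      simpa [Finset.insert_erase hvI, Finset.insert_erase hvJ] using this
    rw [← Finset.sum_image (f := fun I : Finset α => lam ^ I.card) hinj]
    apply Finset.sum_le_sum_of_subset_of_nonneg
    · intro J hJ
      obtain ⟨I, hI, rfl⟩ := Finset.mem_image.mp hJ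
      simp only [hF, Finset.mem_filter, Finset.mem_powerset, not_not] at hI
      obtain ⟨⟨hIA, hind⟩, hvI⟩ := hI
      simp only [Finset.mem_filter, Finset.mem_powerset]
      refine ⟨?_, ?_⟩
      · intro x hx
        rw [Finset.mem_erase] at hx
        simp only [Finset.mem_filter, Finset.mem_erase]
        exact ⟨⟨hx.1, hIA hx.2⟩, hind v hvI x hx.2⟩
      · intro x hx y hy
        exact hind x (Finset.mem_of_mem_erase hx) y (Finset.mem_of_mem_erase hy)
    · intro i _ _; exact pow_nonneg hl _

/-- Bernoulli type inequality -/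
lemma one_sub_pow_le (x : ℝ) (hx0 : 0 ≤ x) (hx1 : x ≤ 1) (K : ℕ) :
    (1 - x) ^ K * (1 + K * x) ≤ 1 := by
  have h1 : 1 + (K:ℝ) * x ≤ (1 + x) ^ K := by
    have := one_add_mul_le_pow (a := x) (by linarith) K
    simpa using this
  calc (1 - x) ^ K * (1 + K * x) ≤ (1 - x) ^ K * (1 + x) ^ K :=
        mul_le_mul_of_nonneg_left h1 (pow_nonneg (by linarith) _)
    _ = ((1 - x) * (1 + x)) ^ K := by rw [mul_pow]
    _ ≤ 1 := by
        apply pow_le_one₀
        · exact mul_nonneg (by linarith) (by linarith)
        · nlinarith

/-- Kleitman-Winston type bound for the independence polynomial. -/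
theorem KW_bound (V : Finset α) {lam β : ℝ} (hl : 0 ≤ lam) (hβ0 : 0 ≤ β) (hβ1 : β ≤ 1)
    (R K N : ℕ) (hR : 1 ≤ R) (hRN : R ≤ N) (hN : V.card ≤ N)
    (hdeg : ∀ A ⊆ V, R < A.card → ∃ v ∈ A, β * (A.card : ℝ) ≤ ((A.filter (fun u => adj v u)).card : ℝ))
    (hirr : ∀ v, ¬ adj v v)
    (hnum : lam * (1 - β / 2) ^ K * (2 * N + K) ≤ K) :
    ∀ A ⊆ V, Z adj lam A ≤ (1 + lam) ^ R * ((R + A.card : ℝ) / R) ^ K := by
  have hRpos : (0:ℝ) < R := by exact_mod_cast hR
  intro A
  induction A using Finset.strongInduction with
  | H A ih =>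
    intro hAV
    have hB1 : (1:ℝ) ≤ 1 + lam := by linarith
    by_cases hcase : A.card ≤ R
    · calc Z adj lam A ≤ (1 + lam) ^ A.card := Z_le_pow adj hl A
        _ ≤ (1 + lam) ^ R := pow_le_pow_right₀ hB1 hcase
        _ ≤ (1 + lam) ^ R * ((R + A.card : ℝ) / R) ^ K := by
            apply le_mul_of_one_le_right (pow_nonneg (by linarith) _)
            apply one_le_pow₀
            rw [le_div_iff₀ hRpos]
            have : (0:ℝ) ≤ A.card := by positivity
            linarith
    · push Not at hcase
      obtain ⟨v, hvA, hvdeg⟩ := hdeg A hAV hcase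
      set D := A.filter (fun u => adj v u) with hD
      have hacard : 1 ≤ A.card := by omega
      have hsub1 : A.erase v ⊂ A := Finset.erase_ssubset hvA
      have hsub2 : (A.erase v).filter (fun u => ¬ adj v u) ⊂ A :=
        lt_of_le_of_lt (Finset.filter_subset _ _) hsub1
      have ih1 := ih _ hsub1 (hsub1.1.trans hAV)
      have ih2 := ih _ hsub2 (hsub2.1.trans hAV)
      have hc1 : ((A.erase v).card : ℝ) = A.card - 1 := by
        rw [Finset.card_erase_of_mem hvA]; push_cast [Nat.cast_sub hacard]; ring
      have hc2 : (((A.erase v).filter (fun u => ¬ adj v u)).card : ℝ) ≤ A.card - β * A.card := by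
        have h3 : ((A.erase v).filter (fun u => ¬ adj v u)).card + D.card ≤ A.card := by
          rw [← Finset.card_union_of_disjoint]
          · apply Finset.card_le_card
            intro x hx
            rcases Finset.mem_union.mp hx with hx | hx
            · exact Finset.mem_of_mem_erase (Finset.mem_filter.mp hx).1
            · exact (Finset.mem_filter.mp hx).1
          · rw [Finset.disjoint_left]
            intro x hx hx'
            exact (Finset.mem_filter.mp hx).2 (Finset.mem_filter.mp hx').2
        have h4 : (((A.erase v).filter (fun u => ¬ adj v u)).card : ℝ) + D.card ≤ A.card := by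
          exact_mod_cast h3
        linarith
      set a : ℝ := (A.card : ℝ) with ha
      have haR : (R:ℝ) < a := by rw [ha]; exact_mod_cast hcase
      have haN : a ≤ N := by
        rw [ha]; exact_mod_cast (Finset.card_le_card hAV).trans hN
      set T : ℝ := R + a with hT
      have hTpos : 0 < T := by linarith
      have hT1 : 1 ≤ T := by
        have : (1:ℝ) ≤ R := by exact_mod_cast hR
        linarith
      have hRN' : (R:ℝ) ≤ N := by exact_mod_cast hRN
      have hT2 : T ≤ 2 * N := by linarith
      -- first term
      have t1 : (T - 1) ^ K * (2 * N + K) ≤ T ^ K * (2 * N) := by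
        have hb := one_sub_pow_le (1 / T) (by positivity) (by rw [div_le_one hTpos]; exact hT1) K
        have e1 : (T - 1) ^ K = T ^ K * (1 - 1 / T) ^ K := by
          rw [← mul_pow]; congr 1; field_simp
        have hnn : 0 ≤ (T - 1) ^ K := pow_nonneg (by linarith) _
        have hb2 : (T - 1) ^ K * (T + K) ≤ T ^ K * T := by
          rw [e1]
          have : T ^ K * (1 - 1 / T) ^ K * (T + K) = T ^ K * T * ((1 - 1 / T) ^ K * (1 + K * (1 / T))) := by
            field_simp
          rw [this]
          calc T ^ K * T * ((1 - 1 / T) ^ K * (1 + K * (1 / T))) ≤ T ^ K * T * 1 := by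
                apply mul_le_mul_of_nonneg_left hb (by positivity)
            _ = T ^ K * T := by ring
        have hle : (T - 1) ^ K ≤ T ^ K := pow_le_pow_left₀ (by linarith) (by linarith) _
        have : (T - 1) ^ K * (2 * N + K) = (T - 1) ^ K * (T + K) + (T - 1) ^ K * (2 * N - T) := by ring
        rw [this]
        have h5 : (T - 1) ^ K * (2 * N - T) ≤ T ^ K * (2 * N - T) :=
          mul_le_mul_of_nonneg_right hle (by linarith)
        nlinarith
      have t2 : lam * (T - β * a) ^ K * (2 * N + K) ≤ T ^ K * K := by
        have h6 : T - β * a ≤ T * (1 - β / 2) := by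
          have : T ≤ 2 * a := by linarith
          nlinarith
        have h7 : 0 ≤ T - β * a := by nlinarith
        have h8 : (T - β * a) ^ K ≤ T ^ K * (1 - β / 2) ^ K := by
          rw [← mul_pow]; exact pow_le_pow_left₀ h7 h6 _
        calc lam * (T - β * a) ^ K * (2 * N + K)
            ≤ lam * (T ^ K * (1 - β / 2) ^ K) * (2 * N + K) := by
              apply mul_le_mul_of_nonneg_right _ (by positivity)
              exact mul_le_mul_of_nonneg_left h8 hl
          _ = T ^ K * (lam * (1 - β / 2) ^ K * (2 * N + K)) := by ring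
          _ ≤ T ^ K * K := mul_le_mul_of_nonneg_left hnum (by positivity)
      have hNK : (0:ℝ) < 2 * N + K := by
        have : (0:ℝ) ≤ K := by positivity
        linarith
      have t3 : (T - 1) ^ K + lam * (T - β * a) ^ K ≤ T ^ K := by
        have : ((T - 1) ^ K + lam * (T - β * a) ^ K) * (2 * N + K) ≤ T ^ K * (2 * N + K) := by
          nlinarith
        exact le_of_mul_le_mul_right this hNK
      have hBpos : 0 ≤ (1 + lam) ^ R := pow_nonneg (by linarith) _
      calc Z adj lam A
          ≤ Z adj lam (A.erase v) + lam * Z adj lam ((A.erase v).filter (fun u => ¬ adj v u)) :=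
            Z_rec adj hl A v hvA
        _ ≤ (1 + lam) ^ R * ((T - 1) / R) ^ K + lam * ((1 + lam) ^ R * ((T - β * a) / R) ^ K) := by
            apply add_le_add
            · refine ih1.trans (le_of_eq ?_)
              rw [hc1]; congr 3; rw [hT]; ring
            · apply mul_le_mul_of_nonneg_left _ hl
              refine ih2.trans ?_
              apply mul_le_mul_of_nonneg_left _ hBpos
              apply pow_le_pow_left₀ (by positivity)
              apply div_le_div_of_nonneg_right _ hRpos.le
              rw [hT]; linarith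
        _ = (1 + lam) ^ R * (((T - 1) ^ K + lam * (T - β * a) ^ K) / (R:ℝ) ^ K) := by
            rw [div_pow, div_pow]; ring
        _ ≤ (1 + lam) ^ R * (T ^ K / (R:ℝ) ^ K) := by
            apply mul_le_mul_of_nonneg_left _ hBpos
            apply div_le_div_of_nonneg_right t3 (by positivity)
        _ = (1 + lam) ^ R * (T / R) ^ K := by rw [div_pow]

/-- number of independent subsets of size `s`, weighted. -/
lemma count_le_Z {lam : ℝ} (hl : 0 ≤ lam) (V : Finset α) (s : ℕ) :
    (((V.powersetCard s).filter (fun I => Indep adj I)).card : ℝ) * lam ^ s ≤ Z adj lam V := by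
  unfold Z
  rw [← nsmul_eq_mul, ← Finset.sum_const]
  calc ∑ _x ∈ (V.powersetCard s).filter (fun I => Indep adj I), lam ^ s
      = ∑ x ∈ (V.powersetCard s).filter (fun I => Indep adj I), lam ^ x.card := by
        apply Finset.sum_congr rfl
        intro x hx
        rw [(Finset.mem_powersetCard.mp (Finset.mem_filter.mp hx).1).2]
    _ ≤ _ := by
        apply Finset.sum_le_sum_of_subset_of_nonneg
        · intro x hx
          simp only [Finset.mem_filter, Finset.mem_powersetCard, Finset.mem_powerset] at hx ⊢
          exact ⟨hx.1.1, hx.2⟩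
        · intro i _ _; exact pow_nonneg hl _

end KW

end Pool.Agent.Helper378.KW
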